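import Mathlib
import Pool.Agent.H.MP_b2f50e_co.A

namespace Pool.Agent.Results.MP_b2f50e_co.No

open Finset Pool.Agent.H.MP_b2f50e_co.A

theorem core (k D d L : ℕ) (hk : 0 < k) (hL : Real.log k ≤ 2 * L) (hd : d < L)
    (hD : D = 72 * k ^ 2 * L) : ∃ (n : ℕ) (E : Finset (Finset (Fin n))), (∀ e ∈ E, e.card = 3) ∧
      (∀ e ∈ E, ∀ f ∈ E, e ≠ f → (e ∩ f).card ≤ 1) ∧
      (∀ v, (E.filter fun e => v ∈ e).card ≤ D) ∧ ∀ c : Fin n → Fin k, ∃ v,
        d < (E.filter fun e => v ∈ e ∧ ∀ x ∈ e, c x = c v).card := by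
  classical
  have hD0 : 0 < D := by rw [hD]; have : 0 < L := by omega
                         positivity
  obtain ⟨m, hm⟩ : ∃ m, m = 2 * k ^ 2 * (1 + 3 * D) := ⟨_, rfl⟩
  have m0 : 0 < m := by rw [hm]; positivity
  obtain ⟨E, h1, h2, h3, -, h5⟩ := build (n := 6 * m) D hk hD0 (by rw [hm]; exact le_of_eq (by ring))
    (m * D) (le_of_eq (by ring))
  refine ⟨6 * m, E, h1, h2, h3, fun c => ?_⟩
  by_contra hc
  push Not at hc
  have a1 : X E c ≤ 6 * m * d := by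
    have s : (E.filter fun e => ∀ x ∈ e, ∀ y ∈ e, c x = c y) ⊆
        univ.biUnion fun v => E.filter fun e => v ∈ e ∧ ∀ x ∈ e, c x = c v := by
      intro e he
      rw [mem_filter] at he
      obtain ⟨v, hv⟩ : e.Nonempty := card_pos.1 (by rw [h1 e he.1]; norm_num)
      exact mem_biUnion.2 ⟨v, mem_univ _, mem_filter.2 ⟨he.1, hv, fun x hx => he.2 x hx v hv⟩⟩
    have := (card_le_card s).trans (card_biUnion_le_card_mul _ _ d fun v _ => hc v)
    simpa [X] using this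
  have a2 : (1 / 2 : ℝ) ^ X E c ≤ ∑ c : Fin (6 * m) → Fin k, (1 / 2 : ℝ) ^ X E c :=
    single_le_sum (f := fun c : Fin (6 * m) → Fin k => (1 / 2 : ℝ) ^ X E c)
      (fun _ _ => by positivity) (mem_univ c)
  have k0 : (1 : ℝ) ≤ k := by exact_mod_cast hk
  have a3 : Real.exp (-1) ^ (6 * m * d) ≤ (1 / 2 : ℝ) ^ X E c := by
    refine le_trans (pow_le_pow_left₀ (by positivity) ?_ _)
      (pow_le_pow_of_le_one (by norm_num) (by norm_num) a1)
    rw [Real.exp_neg, one_div]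
    exact inv_anti₀ (by norm_num) (by linarith [Real.add_one_le_exp 1])
  have a4 : (1 - 1 / (4 * (k : ℝ) ^ 2)) ^ (m * D) ≤ Real.exp (-(1 / (4 * (k : ℝ) ^ 2))) ^ (m * D) := by
    refine pow_le_pow_left₀ ?_ (by linarith [Real.add_one_le_exp (-(1 / (4 * (k : ℝ) ^ 2)))]) _
    have : 1 / (4 * (k : ℝ) ^ 2) ≤ 1 := by
      rw [div_le_one (by positivity)]; nlinarith
    linarith
  have a5 : (k : ℝ) ^ (6 * m) = Real.exp (Real.log k) ^ (6 * m) := by
    rw [Real.exp_log (by linarith)]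
  have a6 := (a3.trans a2).trans (h5.trans (mul_le_mul_of_nonneg_right a4 (by positivity)))
  rw [a5, ← Real.exp_nat_mul, ← Real.exp_nat_mul, ← Real.exp_nat_mul, ← Real.exp_add,
    Real.exp_le_exp] at a6
  have a7 : ((m * D : ℕ) : ℝ) * -(1 / (4 * (k : ℝ) ^ 2)) = -(18 * m * L) := by
    rw [hD]; push_cast; field_simp; ring
  rw [a7] at a6
  push_cast at a6
  have b1 : (0 : ℝ) < m := by exact_mod_cast m0
  have b2 : (d : ℝ) < L := by exact_mod_cast hd
  nlinarith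

theorem result : ¬ ∀ r : ℕ, 2 ≤ r → ∃ C : ℝ, ∀ Δ d : ℕ, 2 ≤ Δ → 2 ≤ d →
    ∀ (n : ℕ) (E : Finset (Finset (Fin n))), (∀ e ∈ E, e.card = r + 1) →
      (∀ e ∈ E, ∀ f ∈ E, e ≠ f → (e ∩ f).card ≤ 1) →
      (∀ v, (E.filter fun e => v ∈ e).card ≤ Δ) →
      ∃ k : ℕ, (k : ℝ) ≤
          max 1 (C * ((Δ : ℝ) / Real.log Δ * (Real.log d / d)) ^ (1 / (r : ℝ))) ∧
        ∃ c : Fin n → Fin k, ∀ v,
          (E.filter fun e => v ∈ e ∧ ∀ x ∈ e, c x = c v).card ≤ d := by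
  intro H
  obtain ⟨C, hC⟩ := H 2 le_rfl
  obtain ⟨s, hs⟩ := exists_nat_gt (144 * C ^ 2 + 2)
  have s2 : (2 : ℝ) < s := by nlinarith [sq_nonneg C]
  have s3 : 2 < s := by exact_mod_cast s2
  obtain ⟨L, hL⟩ : ∃ L, L = s ^ 2 + 1 := ⟨_, rfl⟩
  obtain ⟨k, hk⟩ : ∃ k, k = 3 ^ L := ⟨_, rfl⟩
  have k0 : 0 < k := by rw [hk]; positivity
  have L0 : 0 < L := by omega
  have lk : Real.log k = L * Real.log 3 := by rw [hk]; push_cast; rw [Real.log_pow]
  have l3 : 1 ≤ Real.log 3 := by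
    rw [Real.le_log_iff_exp_le (by norm_num)]
    linarith [Real.exp_one_lt_d9]
  have l4 : Real.log 3 ≤ 2 := by linarith [Real.log_le_sub_one_of_pos (show (0 : ℝ) < 3 by norm_num)]
  have L1 : (0 : ℝ) < L := by exact_mod_cast L0
  have k1 : (1 : ℝ) ≤ k := by exact_mod_cast k0
  obtain ⟨n, E, h1, h2, h3, h4⟩ := core k (72 * k ^ 2 * L) (s ^ 2) L k0 (by nlinarith)
    (by omega) rfl
  have D1 : k ≤ 72 * k ^ 2 * L := by nlinarith
  obtain ⟨j, hj, c, hc⟩ := hC (72 * k ^ 2 * L) (s ^ 2) (by nlinarith) (by nlinarith) n E h1 h2 h3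
  have hjk : j ≤ k := by
    have : (j : ℝ) ≤ k := by
      refine hj.trans (max_le k1 ?_)
      have e1 : (L : ℝ) ≤ Real.log ((72 * k ^ 2 * L : ℕ) : ℝ) :=
        le_trans (b := Real.log k) (by nlinarith)
          (Real.log_le_log (by linarith) (by exact_mod_cast D1))
      have e2 : ((72 * k ^ 2 * L : ℕ) : ℝ) / Real.log ((72 * k ^ 2 * L : ℕ) : ℝ) ≤ 72 * k ^ 2 := by
        rw [div_le_iff₀ (by linarith)]
        have : (72 : ℝ) * k ^ 2 * L ≤ 72 * k ^ 2 * Real.log ((72 * k ^ 2 * L : ℕ) : ℝ) := by gcongr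
        simpa using this
      have e3 : Real.log ((s ^ 2 : ℕ) : ℝ) / ((s ^ 2 : ℕ) : ℝ) ≤ 2 / s := by
        push_cast
        rw [Real.log_pow, div_le_div_iff₀ (by positivity) (by positivity)]
        have := Real.log_le_sub_one_of_pos (show (0 : ℝ) < s by linarith)
        push_cast
        nlinarith
      have e4 : 0 ≤ Real.log ((s ^ 2 : ℕ) : ℝ) / ((s ^ 2 : ℕ) : ℝ) :=
        div_nonneg (Real.log_natCast_nonneg _) (by positivity)
      have e5 := mul_le_mul e2 e3 e4 (by positivity)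
      have e6 : (1 / ((2 : ℕ) : ℝ)) = 1 / 2 := by norm_num
      rw [e6, ← Real.sqrt_eq_rpow]
      refine (le_abs_self _).trans (abs_le_of_sq_le_sq' ?_ (by linarith) |> abs_le.2)
      rw [mul_pow, Real.sq_sqrt (mul_nonneg (div_nonneg (by positivity) (by linarith)) e4)]
      refine (mul_le_mul_of_nonneg_left e5 (sq_nonneg C)).trans ?_
      have : C ^ 2 * (72 * (k : ℝ) ^ 2 * (2 / s)) = k ^ 2 * (144 * C ^ 2 / s) := by ring
      rw [this]
      refine mul_le_of_le_one_right (by positivity) ?_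
      rw [div_le_one (by linarith)]
      linarith
    exact_mod_cast this
  obtain ⟨v, hv⟩ := h4 fun x => Fin.castLE hjk (c x)
  have := hc v
  simp only [Fin.castLE_inj] at hv
  omega

end Pool.Agent.Results.MP_b2f50e_co.No
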